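import Pool.Agent.Mot84.Gen

/-!
# The full subcategory of the generated objects (MP_6c4da4_ag, by helper84)
-/

open CategoryTheory MonoidalCategory BraidedCategory Limits ObjectProperty ZeroObject

universe v u

namespace Mot84

open Mot

noncomputable section

set_option linter.unusedSectionVars false

variable {C : Type u} [Category.{v} C] [Preadditive C] [Linear ℚ C] [MonoidalCategory C]
  [SymmetricCategory C] [MonoidalPreadditive C] [MonoidalLinear ℚ C] [RightRigidCategory C]

/-- the property of being generated -/
abbrev PG (W : MotP.Frobenius C) : ObjectProperty C := fun X => Generated W X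

instance (W : MotP.Frobenius C) : (PG W).IsMonoidal where
  prop_unit := Generated.unit
  prop_tensor X Y hX hY := Generated.tensor X Y hX hY

/-- duals in the full subcategory -/
@[reducible] def pairing (W : MotP.Frobenius C) (X Y : (PG W).FullSubcategory)
    [ExactPairing X.obj Y.obj] : ExactPairing X Y where
  coevaluation' := homMk (η_ X.obj Y.obj)
  evaluation' := homMk (ε_ X.obj Y.obj)
  coevaluation_evaluation' := by
    ext
    exact ExactPairing.coevaluation_evaluation X.obj Y.obj
  evaluation_coevaluation' := by
    ext
    exact ExactPairing.evaluation_coevaluation X.obj Y.obj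

instance (W : MotP.Frobenius C) : RightRigidCategory (PG W).FullSubcategory where
  rightDual X :=
    { rightDual := ⟨X.objᘁ, Generated.dual _ X.property⟩
      exact := pairing W X ⟨X.objᘁ, Generated.dual _ X.property⟩ }

lemma trace_hom (W : MotP.Frobenius C) {X : (PG W).FullSubcategory} (f : X ⟶ X) :
    (Mot.trace f).hom = Mot.trace f.hom := rfl

/-- the Frobenius of the full subcategory -/
def subF (W : MotP.Frobenius C) : 𝟭 (PG W).FullSubcategory ⟶ 𝟭 (PG W).FullSubcategory where
  app X := homMk (W.F.app X.obj)
  naturality X Y f := by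
    ext
    exact W.F.naturality f.hom

lemma component_pow (W : MotP.Frobenius C) (X : (PG W).FullSubcategory) (n : ℕ) :
    InducedCategory.Hom.hom (component (subF W) X ^ n : X ⟶ X) =
      (component W.F X.obj ^ n : X.obj ⟶ X.obj) := by
  induction n with
  | zero => rfl
  | succ n ih =>
    rw [pow_succ, pow_succ]
    change (component (subF W) X : X ⟶ X).hom ≫ InducedCategory.Hom.hom
      (component (subF W) X ^ n : X ⟶ X) = (component W.F X.obj : X.obj ⟶ X.obj) ≫
        (component W.F X.obj ^ n : X.obj ⟶ X.obj)
    rw [ih]
    rfl

/-- the Frobenius structure on the full subcategory -/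
def sub (W : MotP.Frobenius C) : MotP.Frobenius (PG W).FullSubcategory where
  scalar f := by
    obtain ⟨r, hr⟩ := W.scalar f.hom
    refine ⟨r, ?_⟩
    ext
    exact hr
  unit_ne h := by
    have h1 := congrArg InducedCategory.Hom.hom h
    exact W.unit_ne h1
  F := subF W
  F_unit := by
    ext
    exact W.F_unit
  F_tensor X Y := by
    ext
    exact W.F_tensor X.obj Y.obj
  even X := W.even X.obj
  odd X := W.odd X.obj
  trace_formula X n r h := by
    apply W.trace_formula X.obj n r
    have h1 := congrArg InducedCategory.Hom.hom h
    rw [trace_hom] at h1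
    have h2 := component_pow W X n
    rw [h2] at h1
    exact h1
  one_not_odd X := W.one_not_odd X.obj

/-- sections in the full subcategory -/
def homEq (W : MotP.Frobenius C) (X Y : (PG W).FullSubcategory) :
    (X ⟶ Y) ≃ₗ[ℚ] (X.obj ⟶ Y.obj) where
  toFun f := f.hom
  invFun f := homMk f
  left_inv _ := rfl
  right_inv _ := rfl
  map_add' _ _ := rfl
  map_smul' _ _ := rfl

lemma tate_sub (W : MotP.Frobenius C) (X : (PG W).FullSubcategory) (h : TateSquare W X.obj) :
    TateSquare (sub W) X := by
  have h1 : Submodule.map (homEq W (𝟙_ _) (X ⊗ Xᘁ)).toLinearMap (MotP.ntSections (X ⊗ Xᘁ)) =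
      MotP.ntSections (X.obj ⊗ X.objᘁ) := by
    ext f
    constructor
    · rintro ⟨f', hf', rfl⟩ g
      have h1 := congrArg InducedCategory.Hom.hom (hf' (homMk g))
      exact h1
    · intro hf
      refine ⟨homMk f, ?_, rfl⟩
      intro g
      ext
      exact hf g.hom
  have h2 := (Submodule.Quotient.equiv _ _ (homEq W (𝟙_ _) (X ⊗ Xᘁ)) h1).rank_eq
  exact h2.trans h

lemma gen_sub (W : MotP.Frobenius C) {X : C} (h : Generated W X) :
    Generated (sub W) (⟨X, h⟩ : (PG W).FullSubcategory) := by
  induction h with
  | of X h => exact Generated.of _ (tate_sub W _ h)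
  | unit => exact Generated.unit
  | tensor X Y _ _ hX hY => exact Generated.tensor _ _ hX hY
  | dual X _ hX => exact Generated.dual _ hX
  | sum X Y Z i p j q h1 h2 h3 _ _ hX hY =>
    refine Generated.sum _ _ _ (homMk i) (homMk p) (homMk j) (homMk q) ?_ ?_ ?_ hX hY
    · ext
      exact h1
    · ext
      exact h2
    · ext
      exact h3
  | summand X Y i p h _ hX =>
    refine Generated.summand _ _ (homMk i) (homMk p) ?_ hX
    ext
    exact h

instance [IsIdempotentComplete C] (W : MotP.Frobenius C) :
    IsIdempotentComplete (PG W).FullSubcategory where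
  idempotents_split X e he := by
    obtain ⟨Y, i, p, h1, h2⟩ := IsIdempotentComplete.idempotents_split X.obj e.hom
      (congrArg InducedCategory.Hom.hom he)
    refine ⟨⟨Y, Generated.summand _ _ i p h1 X.property⟩, homMk i, homMk p, ?_, ?_⟩
    · ext
      exact h1
    · ext
      exact h2

instance [HasFiniteBiproducts C] (W : MotP.Frobenius C) :
    HasBinaryBiproducts (PG W).FullSubcategory where
  has_binary_biproduct X Y := by
    have : HasBinaryBiproducts C := hasBinaryBiproducts_of_finite_biproducts C
    let Z : (PG W).FullSubcategory := ⟨X.obj ⊞ Y.obj, Generated.sum _ _ _ biprod.inl biprod.fst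
      biprod.inr biprod.snd biprod.inl_fst biprod.inr_snd biprod.total X.property Y.property⟩
    let b : BinaryBicone X Y :=
      { pt := Z
        fst := homMk biprod.fst
        snd := homMk biprod.snd
        inl := homMk biprod.inl
        inr := homMk biprod.inr
        inl_fst := by ext; exact biprod.inl_fst
        inl_snd := by ext; exact biprod.inl_snd
        inr_fst := by ext; exact biprod.inr_fst
        inr_snd := by ext; exact biprod.inr_snd }
    refine hasBinaryBiproduct_of_total b ?_
    apply ObjectProperty.hom_ext
    exact biprod.total (X := X.obj) (Y := Y.obj)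

instance [HasFiniteBiproducts C] (W : MotP.Frobenius C) :
    HasZeroObject (PG W).FullSubcategory where
  zero := by
    have : HasZeroObject C := inferInstance
    refine ⟨⟨(0 : C), Generated.summand (𝟙_ C) 0 0 0 ?_ Generated.unit⟩, ?_⟩
    · exact (isZero_zero C).eq_of_src _ _
    · rw [IsZero.iff_id_eq_zero]
      ext

instance [HasFiniteBiproducts C] (W : MotP.Frobenius C) :
    HasFiniteBiproducts (PG W).FullSubcategory := by
  have h1 : HasInitial (PG W).FullSubcategory := HasZeroObject.hasInitial
  have h2 : HasFiniteCoproducts (PG W).FullSubcategory :=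
    hasFiniteCoproducts_of_has_binary_and_initial
  exact HasFiniteBiproducts.of_hasFiniteCoproducts

/-- the main theorem -/
theorem main [HasFiniteBiproducts C] [IsIdempotentComplete C] (W : MotP.Frobenius C) :
    (MotP.IsAbelian C → MotP.IsAbelian (PG W).FullSubcategory) ∧
    (MotP.IsAbelian (PG W).FullSubcategory ↔
      ∀ (X Y : C) (f : X ⟶ Y), Generated W X → Generated W Y → MotP.NumTrivial f → f = 0) := by
  have hback : (∀ (X Y : C) (f : X ⟶ Y), Generated W X → Generated W Y → MotP.NumTrivial f →
      f = 0) → MotP.IsAbelian (PG W).FullSubcategory := by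
    intro h
    refine ((sub W).toFrob ?_).isAbelian
    intro X Y f hf
    ext
    refine h _ _ f.hom X.property Y.property ?_
    intro g
    have h1 := congrArg InducedCategory.Hom.hom (hf (homMk g))
    exact h1
  refine ⟨?_, ?_, hback⟩
  · rintro ⟨hK, hCK, hcomp⟩
    apply hback
    have hc : ∀ {X Y : C} (f : X ⟶ Y), IsIso (Abelian.coimageImageComparison f) :=
      fun f => hcomp _ _ f
    let _ : Abelian C := Abelian.ofCoimageImageComparisonIsIso
    intro X Y f hX hY hf
    exact zero_of_abelian W hX hY f hf
  · rintro ⟨hK, hCK, hcomp⟩ X Y f hX hY hf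
    have hc : ∀ {X Y : (PG W).FullSubcategory} (f : X ⟶ Y),
        IsIso (Abelian.coimageImageComparison f) := fun f => hcomp _ _ f
    let _ : Abelian (PG W).FullSubcategory := Abelian.ofCoimageImageComparisonIsIso
    have h1 := zero_of_abelian (sub W) (gen_sub W hX) (gen_sub W hY)
      (homMk f : (⟨X, hX⟩ : (PG W).FullSubcategory) ⟶ ⟨Y, hY⟩) (by
        intro g
        ext
        exact hf g.hom)
    exact congrArg InducedCategory.Hom.hom h1

end

end Mot84
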