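import Pool.Agent.MotP.Defs

/-!
# Definitions: the objects generated by those with the Tate property for `X ⊗ X'`
(MP_6c4da4_ag, by helper84)
-/

open CategoryTheory MonoidalCategory

universe v u

namespace Mot84

noncomputable section

variable {C : Type u} [Category.{v} C] [Preadditive C] [Linear ℚ C] [MonoidalCategory C]
  [SymmetricCategory C] [MonoidalPreadditive C] [MonoidalLinear ℚ C] [RightRigidCategory C]

/-- `X` has the Tate property for `X ⊗ X'`: the dimension of the space of sections `𝟙 ⟶ X ⊗ X'`
(that is, of endomorphisms of `X`) modulo the numerically trivial ones is the multiplicity of the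
Frobenius eigenvalue `1` in `even (X ⊗ X')`. -/
def TateSquare (W : MotP.Frobenius C) (X : C) : Prop :=
  Module.rank ℚ ((𝟙_ C ⟶ X ⊗ Xᘁ) ⧸ MotP.ntSections (X ⊗ Xᘁ)) =
    ((W.even (X ⊗ Xᘁ)).count 1 : ℕ)

/-- The objects generated by the objects `X` with the Tate property for `X ⊗ X'`, under tensor
products, duals, direct sums and direct summands. -/
inductive Generated (W : MotP.Frobenius C) : C → Prop
  | of (X : C) : TateSquare W X → Generated W X
  | unit : Generated W (𝟙_ C)
  | tensor (X Y : C) : Generated W X → Generated W Y → Generated W (X ⊗ Y)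
  | dual (X : C) : Generated W X → Generated W Xᘁ
  | sum (X Y Z : C) (i : X ⟶ Z) (p : Z ⟶ X) (j : Y ⟶ Z) (q : Z ⟶ Y) : i ≫ p = 𝟙 X →
      j ≫ q = 𝟙 Y → p ≫ i + q ≫ j = 𝟙 Z → Generated W X → Generated W Y → Generated W Z
  | summand (X Y : C) (i : Y ⟶ X) (p : X ⟶ Y) : i ≫ p = 𝟙 Y → Generated W X → Generated W Y

/-- The full subcategory of the generated objects. -/
abbrev GeneratedCategory (W : MotP.Frobenius C) : Type u :=
  ObjectProperty.FullSubcategory (fun X : C => Generated W X)

end

end Mot84
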