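import Pool.Agent.Mot84.Main

/-!
# Retracts of good objects, duals (MP_6c4da4_ag, by helper84)
-/

open CategoryTheory MonoidalCategory BraidedCategory Limits

universe v u

namespace Mot84

open Mot

noncomputable section

set_option linter.unusedSectionVars false

variable {C : Type u} [Category.{v} C] [Abelian C] [Linear ℚ C] [MonoidalCategory C]
  [SymmetricCategory C] [MonoidalPreadditive C] [MonoidalLinear ℚ C] [RightRigidCategory C]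

/-- retracts of good objects -/
def RG (X : C) : Prop := ∃ (G : C) (i : X ⟶ G) (p : G ⟶ X), i ≫ p = 𝟙 X ∧ Good G

lemma Good.rg {X : C} (h : Good X) : RG X := ⟨X, 𝟙 X, 𝟙 X, Category.id_comp _, h⟩

lemma good_unit : Good (𝟙_ C) := by
  refine ⟨Unit, Unit, inferInstance, inferInstance, fun _ => 𝟙 _, fun _ => 𝟙 _, fun _ => 𝟙 _,
    fun _ => 𝟙 _, ?_, ?_⟩
  · simp
  · simp only [Finset.univ_unique, Finset.sum_singleton]
    rw [id_tensorHom_id, Category.id_comp, braiding_tensorUnit_right, unitors_inv_equal,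
      Iso.hom_inv_id]

lemma RG.retract {X Y : C} (h : RG X) (i : Y ⟶ X) (p : X ⟶ Y) (hip : i ≫ p = 𝟙 Y) : RG Y := by
  obtain ⟨G, j, q, hjq, hG⟩ := h
  refine ⟨G, i ≫ j, q ≫ p, ?_, hG⟩
  rw [Category.assoc, ← Category.assoc j, hjq, Category.id_comp, hip]

lemma RG.iso {X Y : C} (h : RG X) (e : Y ≅ X) : RG Y := h.retract e.hom e.inv e.hom_inv_id

lemma RG.tensor {X Y : C} (hX : RG X) (hY : RG Y) : RG (X ⊗ Y) := by
  obtain ⟨G, j, q, hjq, hG⟩ := hX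
  obtain ⟨G', j', q', hjq', hG'⟩ := hY
  refine ⟨G ⊗ G', (j ⊗ₘ j'), (q ⊗ₘ q'), ?_, hG.tensor hG'⟩
  rw [tensorHom_comp_tensorHom, hjq, hjq', id_tensorHom_id]

lemma RG.sum {X Y Z : C} (hX : RG X) (hY : RG Y) (i₁ : X ⟶ Z) (p₁ : Z ⟶ X) (i₂ : Y ⟶ Z)
    (p₂ : Z ⟶ Y) (h : p₁ ≫ i₁ + p₂ ≫ i₂ = 𝟙 Z) : RG Z := by
  obtain ⟨G, j, q, hjq, hG⟩ := hX
  obtain ⟨G', j', q', hjq', hG'⟩ := hY
  refine ⟨G ⊞ G', biprod.lift (p₁ ≫ j) (p₂ ≫ j'), biprod.desc (q ≫ i₁) (q' ≫ i₂), ?_,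
    hG.biprod hG'⟩
  rw [biprod.lift_desc, Category.assoc, Category.assoc, ← Category.assoc j, hjq,
    ← Category.assoc j', hjq', Category.id_comp, Category.id_comp, h]

/-- duals of duals -/
def dd (X : C) : (Xᘁ)ᘁ ≅ X :=
  rightDualIso (X := Xᘁ) inferInstance (exactPairing_swap X Xᘁ)

/-- duals of tensor products -/
def dt (X Y : C) : (X ⊗ Y)ᘁ ≅ Yᘁ ⊗ Xᘁ :=
  rightDualIso (X := X ⊗ Y) inferInstance inferInstance

lemma mt_id (X : C) : mt Xᘁ Xᘁ (𝟙 X) = 𝟙 Xᘁ := by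
  have h2 : η_ X Xᘁ ≫ X ◁ mt Xᘁ Xᘁ (𝟙 X) = η_ X Xᘁ ≫ X ◁ 𝟙 Xᘁ := by
    rw [mt_coev]
    simp
  rw [← cancel_epi (ρ_ Xᘁ).hom, ← back_coev, ← back_coev, h2]

lemma mt_add {X Y : C} (f g : X ⟶ Y) : mt Xᘁ Yᘁ (f + g) = mt Xᘁ Yᘁ f + mt Xᘁ Yᘁ g := by
  have h2 : η_ Y Yᘁ ≫ Y ◁ mt Xᘁ Yᘁ (f + g) = η_ Y Yᘁ ≫ Y ◁ (mt Xᘁ Yᘁ f + mt Xᘁ Yᘁ g) := by
    rw [mt_coev, MonoidalPreadditive.whiskerLeft_add, Preadditive.comp_add, mt_coev, mt_coev,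
      MonoidalPreadditive.add_whiskerRight, Preadditive.comp_add]
  rw [← cancel_epi (ρ_ Yᘁ).hom, ← back_coev, ← back_coev, h2]

lemma mt_inj {X Y : C} {f g : X ⟶ Y} (h : mt Xᘁ Yᘁ f = mt Xᘁ Yᘁ g) : f = g := by
  apply nm_inj
  unfold nm
  rw [← mt_coev (Y' := Yᘁ) f, ← mt_coev (Y' := Yᘁ) g, h]

/-- the mate as a linear map -/
def mtL (X Y : C) : (X ⟶ Y) →ₗ[ℚ] (Yᘁ ⟶ Xᘁ) where
  toFun f := mt Xᘁ Yᘁ f
  map_add' f g := mt_add f g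
  map_smul' r f := by
    have h2 : η_ Y Yᘁ ≫ Y ◁ mt Xᘁ Yᘁ (r • f) = η_ Y Yᘁ ≫ Y ◁ (r • mt Xᘁ Yᘁ f) := by
      rw [mt_coev, MonoidalLinear.whiskerLeft_smul, Linear.comp_smul, mt_coev,
        MonoidalLinear.smul_whiskerRight, Linear.comp_smul]
    simp only [RingHom.id_apply]
    rw [← cancel_epi (ρ_ Yᘁ).hom, ← back_coev, ← back_coev, h2]

lemma t_iso (W : Frob C) {X Y : C} (e : X ≅ Y) (n : ℕ) : W.t X n = W.t Y n := by
  unfold Frob.t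
  have h1 : W.Fp X n = (W.Fp X n ≫ e.hom) ≫ e.inv := by
    rw [Category.assoc, e.hom_inv_id, Category.comp_id]
  rw [h1, Frob.tr_comm, ← W.Fp_nat, ← Category.assoc, e.inv_hom_id, Category.id_comp]

lemma mult_congr (W : Frob C) {X Y : C} (h : ∀ n, W.t X n = W.t Y n) : W.mult X = W.mult Y := by
  classical
  obtain ⟨P, h1, hP⟩ := exP ((W.α X + W.β X + (W.α Y + W.β Y)).toFinset)
  have e1 := W.mult_eq X P h1 (fun z hz => hP z (by simp [hz])) (fun z hz => hP z (by simp [hz]))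
  have e2 := W.mult_eq Y P h1 (fun z hz => hP z (by simp [hz])) (fun z hz => hP z (by simp [hz]))
  have h2 : (W.mult X : ℂ) = W.mult Y := by
    rw [← e1, ← e2]
    refine Finset.sum_congr rfl (fun k _ => ?_)
    rw [h k]
  exact_mod_cast h2

/-- the Tate property passes to the dual -/
lemma tate_dual (W : Frob C) {Y : C} (hY : W.mult (Y ⊗ Yᘁ) = Module.finrank ℚ (Y ⟶ Y)) :
    W.mult (Yᘁ ⊗ (Yᘁ)ᘁ) = Module.finrank ℚ (Yᘁ ⟶ Yᘁ) := by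
  have h1 : W.mult (Yᘁ ⊗ (Yᘁ)ᘁ) = W.mult (Y ⊗ Yᘁ) := by
    apply mult_congr
    intro n
    rw [W.t_tensor, W.t_tensor, t_iso W (dd Y), mul_comm]
  have hfin := W.finite_hom Y Y
  have hfin' := W.finite_hom Yᘁ Yᘁ
  have h2 : Module.finrank ℚ (Y ⟶ Y) ≤ Module.finrank ℚ (Yᘁ ⟶ Yᘁ) :=
    LinearMap.finrank_le_finrank_of_injective (f := mtL Y Y) (fun f g h => mt_inj h)
  have h3 := W.finrank_hom_le Yᘁ Yᘁ
  omega

end

end Mot84
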