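import Pool.Agent.Mot84.Duals
import Pool.Agent.Mot84.Defs
import Pool.Agent.MotP.Eq

/-!
# The abelian case (MP_6c4da4_ag, by helper84)
-/

open CategoryTheory MonoidalCategory BraidedCategory Limits

universe v u

namespace Mot84

open Mot

noncomputable section

set_option linter.unusedSectionVars false

variable {C : Type u} [Category.{v} C] [Abelian C] [Linear ℚ C] [MonoidalCategory C]
  [SymmetricCategory C] [MonoidalPreadditive C] [MonoidalLinear ℚ C] [RightRigidCategory C]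

lemma tate_of (W : MotP.Frobenius C) {X : C} (h : TateSquare W X) :
    W.toMot.mult (X ⊗ Xᘁ) = Module.finrank ℚ (X ⟶ X) := by
  have hfin := W.toMot.finite_hom (𝟙_ C) (X ⊗ Xᘁ)
  have hfin2 := W.toMot.finite_hom X X
  have h1 : Module.finrank ℚ (X ⟶ X) ≤ Module.finrank ℚ (𝟙_ C ⟶ X ⊗ Xᘁ) :=
    LinearMap.finrank_le_finrank_of_injective (f := nmL X X) (fun f g h => nm_inj h)
  have h2 : Module.finrank ℚ (𝟙_ C ⟶ X ⊗ Xᘁ) ≤ Module.finrank ℚ (X ⟶ X) :=
    LinearMap.finrank_le_finrank_of_surjective (f := nmL X X) nm_surj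
  have h3 := Module.finrank_le_of_rank_le (W.toMot.rank_le (X ⊗ Xᘁ))
  have h4 : Module.rank ℚ ((𝟙_ C ⟶ X ⊗ Xᘁ) ⧸ MotP.ntSections (X ⊗ Xᘁ)) =
    ((W.even (X ⊗ Xᘁ)).count 1 : ℕ) := h
  have h5 := rank_quotient_le (MotP.ntSections (X ⊗ Xᘁ))
  rw [h4, ← Module.finrank_eq_rank, Nat.cast_le] at h5
  have h6 : W.toMot.mult (X ⊗ Xᘁ) = (W.even (X ⊗ Xᘁ)).count 1 := rfl
  omega

lemma rg_of (W : MotP.Frobenius C) {X : C} (h : Generated W X) : RG X ∧ RG Xᘁ := by
  induction h with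
  | of X h =>
    have h1 := tate_of W h
    exact ⟨(good_of_tate W.toMot h1).rg, (good_of_tate W.toMot (tate_dual W.toMot h1)).rg⟩
  | unit =>
    refine ⟨good_unit.rg, good_unit.rg.iso ?_⟩
    exact rightDualIso (X := 𝟙_ C) inferInstance inferInstance
  | tensor X Y _ _ hX hY =>
    exact ⟨hX.1.tensor hY.1, (hY.2.tensor hX.2).iso (dt X Y)⟩
  | dual X _ hX => exact ⟨hX.2, hX.1.iso (dd X)⟩
  | sum X Y Z i p j q h1 h2 h3 _ _ hX hY =>
    refine ⟨hX.1.sum hY.1 i p j q h3, ?_⟩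
    refine hX.2.sum hY.2 (mt _ _ p) (mt _ _ i) (mt _ _ q) (mt _ _ j) ?_
    rw [← mt_comp, ← mt_comp, ← mt_add, h3, mt_id]
  | summand X Y i p h _ hX =>
    refine ⟨hX.1.retract i p h, ?_⟩
    refine hX.2.retract (mt _ _ p) (mt _ _ i) ?_
    rw [← mt_comp, h, mt_id]

/-- in the abelian case, numerically trivial morphisms between generated objects are zero -/
theorem zero_of_abelian (W : MotP.Frobenius C) {X Y : C} (hX : Generated W X)
    (hY : Generated W Y) (f : X ⟶ Y) (hf : MotP.NumTrivial f) : f = 0 := by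
  obtain ⟨G, i, p, hip, hG⟩ := (rg_of W hY).1.tensor (rg_of W hX).2
  apply nm_inj
  have h1 : nm f ≫ i = 0 := by
    apply hG.zero W.toMot
    intro g
    rw [Category.assoc]
    obtain ⟨h, hh⟩ := ev_surj (i ≫ g)
    rw [hh, nm_ev]
    exact hf h
  have h2 : nm f = 0 := by
    calc nm f = (nm f ≫ i) ≫ p := by rw [Category.assoc, hip, Category.comp_id]
      _ = 0 := by rw [h1, Limits.zero_comp]
  rw [h2]
  exact (map_zero (nmL X Y)).symm

end

end Mot84
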