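import Pool.Agent.Mot.Dual
import Pool.Agent.Mot.Bound
import Pool.Agent.Mot.Conv

/-!
# Objects which are sums of lines up to scalar extension (MP_6c4da4_ag, by helper84)
-/

open CategoryTheory MonoidalCategory BraidedCategory Limits

universe v u

namespace Mot84

open Mot

noncomputable section

set_option linter.unusedSectionVars false

variable {C : Type u} [Category.{v} C] [Abelian C] [Linear ℚ C] [MonoidalCategory C]
  [SymmetricCategory C] [MonoidalPreadditive C] [MonoidalLinear ℚ C] [RightRigidCategory C]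

/-- an object is good if there are endomorphisms with `∑ z w = 1` and
`∑ z ⊗ w = (∑ a ⊗ b) β` -/
def Good (X : C) : Prop :=
  ∃ (κ ι : Type) (_ : Fintype κ) (_ : Fintype ι) (z w : κ → (X ⟶ X)) (a b : ι → (X ⟶ X)),
    (∑ k, z k ≫ w k = 𝟙 X) ∧ (∑ k, (z k ⊗ₘ w k) = (∑ j, (a j ⊗ₘ b j)) ≫ (β_ X X).hom)

/-- dividing out sections -/
lemma divideAll (W : Frob C) {X : C} : ∀ (n : ℕ) (v : Fin n → (𝟙_ C ⟶ X)),
    ∃ (Z : C) (π : X ⟶ Z), Epi π ∧ (∀ i, v i ≫ π = 0) ∧
      (∀ (G : C) (x : G ⟶ X), x ≫ π = 0 → ∃ c : Fin n → (G ⟶ 𝟙_ C), x = ∑ i, c i ≫ v i) ∧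
      (LinearIndependent ℚ v → W.mult X = W.mult Z + n) := by
  intro n
  induction n with
  | zero =>
    intro v
    refine ⟨X, 𝟙 X, inferInstance, fun i => i.elim0, ?_, fun _ => rfl⟩
    intro G x hx
    refine ⟨fun i => i.elim0, ?_⟩
    rw [Category.comp_id] at hx
    simp [hx]
  | succ n ih =>
    intro v
    obtain ⟨Z, π, hπ, h0, h1, h2⟩ := ih (Fin.init v)
    by_cases hs : v (Fin.last n) ≫ π = 0
    · refine ⟨Z, π, hπ, ?_, ?_, ?_⟩
      · intro i
        refine Fin.lastCases hs (fun j => h0 j) i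
      · intro G x hx
        obtain ⟨c, hc⟩ := h1 G x hx
        refine ⟨Fin.snoc c 0, ?_⟩
        rw [Fin.sum_univ_castSucc, hc]
        simp [Fin.init]
      · intro hv
        exfalso
        rw [linearIndependent_finSucc'] at hv
        apply hv.2
        obtain ⟨c, hc⟩ := h1 _ _ hs
        rw [hc]
        refine Submodule.sum_mem _ (fun i _ => ?_)
        have h3 : c i ≫ Fin.init v i = W.val (c i) • Fin.init v i := by
          conv_lhs => rw [W.val_spec (c i)]
          rw [Linear.smul_comp]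
          congr 1
          exact Category.id_comp _
        rw [h3]
        exact Submodule.smul_mem _ _ (Submodule.subset_span ⟨i, rfl⟩)
    · have := W.simple_unit
      have hmono : Mono (v (Fin.last n) ≫ π) := mono_of_nonzero_from_simple hs
      have hS : (ShortComplex.mk (v (Fin.last n) ≫ π) (cokernel.π (v (Fin.last n) ≫ π))
          (cokernel.condition (v (Fin.last n) ≫ π))).ShortExact :=
        { exact := ShortComplex.exact_cokernel _
          mono_f := hmono
          epi_g := inferInstanceAs (Epi (cokernel.π _)) }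
      refine ⟨cokernel (v (Fin.last n) ≫ π), π ≫ cokernel.π _, epi_comp _ _, ?_, ?_, ?_⟩
      · intro i
        refine Fin.lastCases ?_ (fun j => ?_) i
        · rw [← Category.assoc, cokernel.condition]
        · have h3 : v j.castSucc ≫ π = 0 := h0 j
          rw [← Category.assoc, h3, Limits.zero_comp]
      · intro G x hx
        rw [← Category.assoc] at hx
        have h3 : hS.exact.lift (x ≫ π) hx ≫ (v (Fin.last n) ≫ π) = x ≫ π :=
          hS.exact.lift_f (x ≫ π) hx
        set y : G ⟶ 𝟙_ C := hS.exact.lift (x ≫ π) hx with hy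
        have h4 : (x - y ≫ v (Fin.last n)) ≫ π = 0 := by
          rw [Preadditive.sub_comp, Category.assoc, h3, sub_self]
        obtain ⟨c, hc⟩ := h1 _ _ h4
        refine ⟨Fin.snoc c y, ?_⟩
        rw [Fin.sum_univ_castSucc]
        rw [sub_eq_iff_eq_add] at hc
        rw [hc]
        simp [Fin.init]
      · intro hv
        have h5 := W.mult_add hS
        change W.mult Z = W.mult (𝟙_ C) + W.mult (cokernel (v (Fin.last n) ≫ π)) at h5
        rw [W.mult_unit] at h5
        rw [linearIndependent_finSucc'] at hv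
        have h6 := h2 hv.1
        omega

lemma zero_of_mult (W : Frob C) {Z : C} (hZ : W.mult Z = 0) {G : C} (x : G ⟶ Z)
    (F : Z ⟶ Z) (hF : F = W.F.app Z) (hx' : x ≫ (F - 𝟙 Z) = 0) : x = 0 := by
  set ι := kernel.ι (F - 𝟙 Z) with hι
  have hmono : Mono ι := inferInstanceAs (Mono (kernel.ι _))
  have h1 : ι ≫ F = ι := by
    have h2 := kernel.condition (F - 𝟙 Z)
    rw [Preadditive.comp_sub, sub_eq_zero, Category.comp_id] at h2
    exact h2
  have hK : W.F.app (kernel (F - 𝟙 Z)) = 𝟙 (kernel (F - 𝟙 Z)) := by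
    rw [← cancel_mono ι, ← W.F_nat, ← hF, h1]
    exact (Category.id_comp _).symm
  have h4 := W.mult_le_of_mono ι
  have h5 : W.mult (kernel (F - 𝟙 Z)) = 0 := by omega
  have h6 := W.mult_of_one hK
  rw [h5, Nat.cast_zero] at h6
  have h7 : IsZero (kernel (F - 𝟙 Z)) := by
    apply W.isZero_of_t
    intro n
    have h8 : W.t (kernel (F - 𝟙 Z)) n = W.t (kernel (F - 𝟙 Z)) 0 := by
      unfold Frob.t
      rw [W.Fp_of_one hK, W.Fp_of_one hK]
    rw [h8, ← h6]
  rw [← kernel.lift_ι _ x hx', h7.eq_of_tgt (kernel.lift _ x hx') 0, Limits.zero_comp]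

open Polynomial in
/-- a polynomial in Frobenius -/
lemma exists_poly (W : Frob C) {Z : C} (hZ : W.mult Z = 0) :
    ∃ q : ℚ[X], q.eval 1 = 1 ∧ aeval (W.FE Z) q = 0 := by
  have hfin : Module.Finite ℚ (End Z) := W.finite_hom Z Z
  have hint : IsIntegral ℚ (W.FE Z) := IsIntegral.of_finite ℚ (W.FE Z)
  set m := minpoly ℚ (W.FE Z) with hm
  have hm0 : m ≠ 0 := minpoly.ne_zero hint
  have h1 : m.eval 1 ≠ 0 := by
    intro h
    obtain ⟨q, hq⟩ := Polynomial.dvd_iff_isRoot.mpr h
    have hq0 : q ≠ 0 := by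
      intro h0
      rw [h0, mul_zero] at hq
      exact hm0 hq
    have h2 : aeval (W.FE Z) q = 0 := by
      have h3 : (W.FE Z - 1) * aeval (W.FE Z) q = 0 := by
        have h4 := minpoly.aeval ℚ (W.FE Z)
        rw [← hm, hq, map_mul, map_sub, aeval_X, aeval_C, map_one] at h4
        exact h4
      exact zero_of_mult W hZ (aeval (W.FE Z) q : Z ⟶ Z) (W.FE Z) rfl h3
    have h4 := minpoly.degree_le_of_ne_zero ℚ (W.FE Z) hq0 h2
    have h5 : degree m = degree q + 1 := by
      rw [hq, degree_mul, degree_X_sub_C, add_comm]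
    rw [← hm, h5, degree_eq_natDegree hq0] at h4
    have h6 : ((q.natDegree + 1 : ℕ) : WithBot ℕ) ≤ (q.natDegree : WithBot ℕ) := by
      exact_mod_cast h4
    have h7 : q.natDegree + 1 ≤ q.natDegree := by exact_mod_cast h6
    omega
  refine ⟨Polynomial.C (m.eval 1)⁻¹ * m, ?_, ?_⟩
  · rw [eval_mul, eval_C, inv_mul_cancel₀ h1]
  · rw [map_mul, hm, minpoly.aeval, mul_zero]

end

end Mot84
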