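import Pool.Agent.Mot84.Turn

/-!
# Good objects: stability, and numerically trivial sections vanish (MP_6c4da4_ag, by helper84)
-/

open CategoryTheory MonoidalCategory BraidedCategory Limits

universe v u

namespace Mot84

open Mot

noncomputable section

set_option linter.unusedSectionVars false

variable {C : Type u} [Category.{v} C] [Abelian C] [Linear ℚ C] [MonoidalCategory C]
  [SymmetricCategory C] [MonoidalPreadditive C] [MonoidalLinear ℚ C] [RightRigidCategory C]

lemma add_tensor {A B A' B' : C} (x y : A ⟶ A') (z : B ⟶ B') :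
    ((x + y) ⊗ₘ z) = (x ⊗ₘ z) + (y ⊗ₘ z) := by
  rw [MonoidalCategory.tensorHom_def, MonoidalCategory.tensorHom_def,
    MonoidalCategory.tensorHom_def, MonoidalPreadditive.add_whiskerRight, Preadditive.add_comp]

lemma sum_tensor' {A B A' B' : C} {κ : Type} [Fintype κ] (x : κ → (A ⟶ A')) (z : B ⟶ B') :
    ((∑ k, x k) ⊗ₘ z) = ∑ k, (x k ⊗ₘ z) := by
  rw [MonoidalCategory.tensorHom_def, sum_whiskerRight, Preadditive.sum_comp]
  refine Finset.sum_congr rfl (fun k _ => ?_)
  rw [MonoidalCategory.tensorHom_def]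

lemma tensor_sum' {A B A' B' : C} {κ : Type} [Fintype κ] (z : B ⟶ B') (x : κ → (A ⟶ A')) :
    (z ⊗ₘ (∑ k, x k)) = ∑ k, (z ⊗ₘ x k) := by
  rw [MonoidalCategory.tensorHom_def, whiskerLeft_sum, Preadditive.comp_sum]
  refine Finset.sum_congr rfl (fun k _ => ?_)
  rw [MonoidalCategory.tensorHom_def]

/-- good objects are stable under tensor products -/
theorem Good.tensor {X Y : C} (hX : Good X) (hY : Good Y) : Good (X ⊗ Y) := by
  obtain ⟨κ, ι, _, _, z, w, a, b, h1, h2⟩ := hX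
  obtain ⟨κ', ι', _, _, z', w', a', b', h1', h2'⟩ := hY
  refine ⟨κ × κ', ι × ι', inferInstance, inferInstance, fun p => (z p.1 ⊗ₘ z' p.2),
    fun p => (w p.1 ⊗ₘ w' p.2), fun p => (a p.1 ⊗ₘ a' p.2), fun p => (b p.1 ⊗ₘ b' p.2), ?_, ?_⟩
  · calc ∑ p : κ × κ', (z p.1 ⊗ₘ z' p.2) ≫ (w p.1 ⊗ₘ w' p.2)
        = ∑ p : κ × κ', ((z p.1 ≫ w p.1) ⊗ₘ (z' p.2 ≫ w' p.2)) :=
          Finset.sum_congr rfl (fun p _ => tensorHom_comp_tensorHom _ _ _ _)
      _ = ∑ k, ∑ k', ((z k ≫ w k) ⊗ₘ (z' k' ≫ w' k')) := Fintype.sum_prod_type _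
      _ = ((∑ k, z k ≫ w k) ⊗ₘ (∑ k', z' k' ≫ w' k')) := by
          rw [sum_tensor']
          exact Finset.sum_congr rfl (fun k _ => (tensor_sum' _ _).symm)
      _ = 𝟙 (X ⊗ Y) := by rw [h1, h1', id_tensorHom_id]
  · have key : ∀ {K K' : Type} [Fintype K] [Fintype K'] (s t : K → (X ⟶ X)) (s' t' : K' → (Y ⟶ Y)),
        tensorμ X X Y Y ≫ ∑ p : K × K', ((s p.1 ⊗ₘ s' p.2) ⊗ₘ (t p.1 ⊗ₘ t' p.2)) =
          ((∑ k, (s k ⊗ₘ t k)) ⊗ₘ (∑ k', (s' k' ⊗ₘ t' k'))) ≫ tensorμ X X Y Y := by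
      intro K K' _ _ s t s' t'
      rw [Preadditive.comp_sum]
      calc ∑ p : K × K', tensorμ X X Y Y ≫ ((s p.1 ⊗ₘ s' p.2) ⊗ₘ (t p.1 ⊗ₘ t' p.2))
          = ∑ p : K × K', ((s p.1 ⊗ₘ t p.1) ⊗ₘ (s' p.2 ⊗ₘ t' p.2)) ≫ tensorμ X X Y Y :=
            Finset.sum_congr rfl (fun p _ => (tensorμ_natural _ _ _ _).symm)
        _ = (∑ p : K × K', ((s p.1 ⊗ₘ t p.1) ⊗ₘ (s' p.2 ⊗ₘ t' p.2))) ≫ tensorμ X X Y Y := by
            rw [Preadditive.sum_comp]
        _ = _ := by
            congr 1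
            rw [Fintype.sum_prod_type, sum_tensor']
            exact Finset.sum_congr rfl (fun k _ =>
              (tensor_sum' (s k ⊗ₘ t k) (fun k' => (s' k' ⊗ₘ t' k'))).symm)
    have hμ : Epi (tensorμ X X Y Y) := by
      have h3 : tensorδ X X Y Y ≫ tensorμ X X Y Y = 𝟙 _ := tensorδ_tensorμ X X Y Y
      have h4 : tensorμ X X Y Y ≫ tensorδ X X Y Y = 𝟙 _ := tensorμ_tensorδ X X Y Y
      have : IsIso (tensorμ X X Y Y) := ⟨_, h4, h3⟩
      infer_instance
    rw [← cancel_epi (tensorμ X X Y Y), key z w z' w', ← Category.assoc, key a b a' b', h2, h2',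
      Category.assoc, SymmetricCategory.tensorμ_braid_swap, ← Category.assoc,
      tensorHom_comp_tensorHom]

/-- good objects are stable under direct sums -/
theorem Good.biprod {X Y : C} (hX : Good X) (hY : Good Y) : Good (X ⊞ Y) := by
  obtain ⟨κ, ι, _, _, z, w, a, b, h1, h2⟩ := hX
  obtain ⟨κ', ι', _, _, z', w', a', b', h1', h2'⟩ := hY
  refine ⟨κ ⊕ κ', ι ⊕ ι', inferInstance, inferInstance,
    Sum.elim (fun k => biprod.fst ≫ z k ≫ biprod.inl) (fun k => biprod.snd ≫ z' k ≫ biprod.inr),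
    Sum.elim (fun k => biprod.fst ≫ w k ≫ biprod.inl) (fun k => biprod.snd ≫ w' k ≫ biprod.inr),
    Sum.elim (fun k => biprod.fst ≫ a k ≫ biprod.inl) (fun k => biprod.snd ≫ a' k ≫ biprod.inr),
    Sum.elim (fun k => biprod.fst ≫ b k ≫ biprod.inl) (fun k => biprod.snd ≫ b' k ≫ biprod.inr),
    ?_, ?_⟩
  · have key : ∀ {Z : C} (i : Z ⟶ X ⊞ Y) (p : X ⊞ Y ⟶ Z) (_ : i ≫ p = 𝟙 Z) {K : Type} [Fintype K]
        (s t : K → (Z ⟶ Z)) (_ : ∑ k, s k ≫ t k = 𝟙 Z),
        ∑ k, (p ≫ s k ≫ i) ≫ (p ≫ t k ≫ i) = p ≫ i := by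
      intro Z i p hip K _ s t hst
      calc ∑ k, (p ≫ s k ≫ i) ≫ (p ≫ t k ≫ i) = ∑ k, p ≫ (s k ≫ t k) ≫ i := by
            refine Finset.sum_congr rfl (fun k _ => ?_)
            simp only [Category.assoc]
            rw [← Category.assoc i p, hip, Category.id_comp]
        _ = p ≫ i := by
            rw [← Preadditive.comp_sum, ← Preadditive.sum_comp, hst, Category.id_comp]
    rw [Fintype.sum_sum_type]
    simp only [Sum.elim_inl, Sum.elim_inr]
    rw [key biprod.inl biprod.fst biprod.inl_fst z w h1,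
      key biprod.inr biprod.snd biprod.inr_snd z' w' h1', biprod.total]
  · have key : ∀ {Z : C} (i : Z ⟶ X ⊞ Y) (p : X ⊞ Y ⟶ Z) {K : Type} [Fintype K]
        (s t : K → (Z ⟶ Z)),
        ∑ k, ((p ≫ s k ≫ i) ⊗ₘ (p ≫ t k ≫ i)) = (p ⊗ₘ p) ≫ (∑ k, (s k ⊗ₘ t k)) ≫ (i ⊗ₘ i) := by
      intro Z i p K _ s t
      rw [Preadditive.sum_comp, Preadditive.comp_sum]
      refine Finset.sum_congr rfl (fun k _ => ?_)
      rw [tensorHom_comp_tensorHom, tensorHom_comp_tensorHom]
    rw [Fintype.sum_sum_type, Fintype.sum_sum_type]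
    simp only [Sum.elim_inl, Sum.elim_inr]
    rw [key biprod.inl biprod.fst z w, key biprod.inr biprod.snd z' w',
      key biprod.inl biprod.fst a b, key biprod.inr biprod.snd a' b', h2, h2',
      Preadditive.add_comp]
    simp only [Category.assoc, braiding_naturality]

/-- independence -/
lemma indep (W : Frob C) {X Z G : C} : ∀ {n : ℕ} (f : Fin n → (𝟙_ C ⟶ X))
    (_ : LinearIndependent ℚ f) (h : Fin n → (G ⟶ Z)) (_ : ∑ k, (f k ⊗ₘ h k) = 0) (k : Fin n),
    h k = 0 := by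
  intro n
  induction n with
  | zero =>
    intro f hf h h0 k
    exact k.elim0
  | succ n ih =>
    intro f hf h h0
    rw [linearIndependent_finSucc'] at hf
    obtain ⟨V, π, hπ, h1, h2, -⟩ := divideAll W n (Fin.init f)
    have h3 : f (Fin.last n) ≫ π ≠ 0 := by
      intro h4
      apply hf.2
      obtain ⟨c, hc⟩ := h2 _ _ h4
      rw [hc]
      refine Submodule.sum_mem _ (fun i _ => ?_)
      have h3 : c i ≫ Fin.init f i = W.val (c i) • Fin.init f i := by
        conv_lhs => rw [W.val_spec (c i)]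
        rw [Linear.smul_comp]
        congr 1
        exact Category.id_comp _
      rw [h3]
      exact Submodule.smul_mem _ _ (Submodule.subset_span ⟨i, rfl⟩)
    have h4 : h (Fin.last n) = 0 := by
      have h5 : (∑ k, (f k ⊗ₘ h k)) ≫ π ▷ Z = 0 := by rw [h0, Limits.zero_comp]
      rw [Fin.sum_univ_castSucc, Preadditive.add_comp, Preadditive.sum_comp] at h5
      have h6 : ∀ i : Fin n, (f i.castSucc ⊗ₘ h i.castSucc) ≫ π ▷ Z = 0 := by
        intro i
        have h7 : f i.castSucc ≫ π = 0 := h1 i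
        rw [← tensorHom_id, tensorHom_comp_tensorHom, h7, MonoidalCategory.tensorHom_def,
          MonoidalPreadditive.zero_whiskerRight, Limits.zero_comp]
      rw [Finset.sum_congr rfl (fun i _ => h6 i), Finset.sum_const_zero, zero_add,
        ← tensorHom_id, tensorHom_comp_tensorHom, Category.comp_id,
        MonoidalCategory.tensorHom_def'] at h5
      have := W.simple_unit
      have hmono : Mono (f (Fin.last n) ≫ π) := mono_of_nonzero_from_simple h3
      have h8 : 𝟙_ C ◁ h (Fin.last n) = 0 := by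
        rw [← cancel_mono ((f (Fin.last n) ≫ π) ▷ Z), h5, Limits.zero_comp]
      rw [id_whiskerLeft] at h8
      rw [← cancel_epi (λ_ G).hom, ← cancel_mono (λ_ Z).inv, Category.assoc, h8, Limits.comp_zero,
        Limits.zero_comp]
    intro k
    refine Fin.lastCases h4 (fun i => ?_) k
    refine ih (Fin.init f) hf.1 (fun i => h i.castSucc) ?_ i
    rw [Fin.sum_univ_castSucc, h4] at h0
    rw [MonoidalCategory.tensorHom_def, MonoidalPreadditive.whiskerLeft_zero,
      Limits.comp_zero, add_zero] at h0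
    exact h0

/-- numerically trivial sections of a good object vanish -/
theorem Good.zero (W : Frob C) {X : C} (hX : Good X) (f : 𝟙_ C ⟶ X)
    (hf : ∀ g : X ⟶ 𝟙_ C, f ≫ g = 0) : f = 0 := by
  classical
  obtain ⟨κ, ι, _, _, z, w, a, b, h1, h2⟩ := hX
  obtain ⟨Z, π, hπ, h3, h4, -⟩ := divideAll W (Fintype.card ι)
    (fun j => f ≫ a ((Fintype.equivFin ι).symm j))
  have h3' : ∀ j, f ≫ a j ≫ π = 0 := by
    intro j
    have h5 := h3 (Fintype.equivFin ι j)
    rw [Equiv.symm_apply_apply, Category.assoc] at h5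
    exact h5
  -- the relation
  have h5 : ∑ k, ((f ≫ z k) ⊗ₘ (w k ≫ π)) = 0 := by
    have h6 : (f ⊗ₘ 𝟙 X) ≫ (∑ k, (z k ⊗ₘ w k)) ≫ (X ◁ π) = ∑ k, ((f ≫ z k) ⊗ₘ (w k ≫ π)) := by
      rw [Preadditive.sum_comp, Preadditive.comp_sum]
      refine Finset.sum_congr rfl (fun k _ => ?_)
      rw [← id_tensorHom, tensorHom_comp_tensorHom, tensorHom_comp_tensorHom, Category.comp_id,
        Category.id_comp]
    rw [← h6, h2, Preadditive.sum_comp, Preadditive.sum_comp, Preadditive.comp_sum]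
    refine Finset.sum_eq_zero (fun j _ => ?_)
    rw [← id_tensorHom, Category.assoc, ← braiding_naturality, ← Category.assoc,
      tensorHom_comp_tensorHom, tensorHom_comp_tensorHom_assoc, Category.assoc, h3',
      MonoidalCategory.tensorHom_def, MonoidalPreadditive.zero_whiskerRight, Limits.zero_comp,
      Limits.zero_comp]
  -- a basis of the span
  obtain ⟨κ', t0, ht0, hspan, hind⟩ := exists_linearIndependent' ℚ (fun k => f ≫ z k)
  have hfin : Finite κ' := Finite.of_injective t0 ht0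
  obtain ⟨n, ⟨e⟩⟩ := Finite.exists_equiv_fin κ'
  have hind' : LinearIndependent ℚ (fun i : Fin n => f ≫ z (t0 (e.symm i))) :=
    hind.comp e.symm e.symm.injective
  have hrange : Set.range (fun i : Fin n => f ≫ z (t0 (e.symm i))) =
      Set.range ((fun k => f ≫ z k) ∘ t0) := by
    ext x
    constructor
    · rintro ⟨i, rfl⟩
      exact ⟨e.symm i, rfl⟩
    · rintro ⟨i, rfl⟩
      exact ⟨e i, by simp⟩
  have hmem : ∀ k, ∃ c : Fin n → ℚ, ∑ i, c i • (f ≫ z (t0 (e.symm i))) = f ≫ z k := by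
    intro k
    have h6 : f ≫ z k ∈ Submodule.span ℚ (Set.range (fun i : Fin n => f ≫ z (t0 (e.symm i)))) := by
      rw [hrange, hspan]
      exact Submodule.subset_span ⟨k, rfl⟩
    exact (Submodule.mem_span_range_iff_exists_fun ℚ).mp h6
  choose c hc using hmem
  obtain ⟨t, ht⟩ : ∃ t : Fin n → κ, t = fun i => t0 (e.symm i) := ⟨_, rfl⟩
  have hc' : ∀ k, f ≫ z k = ∑ i, c k i • (f ≫ z (t i)) := by
    intro k
    rw [← hc k, ht]
  have hind'' : LinearIndependent ℚ (fun i : Fin n => f ≫ z (t i)) := by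
    rw [ht]
    exact hind'
  obtain ⟨y, hy⟩ : ∃ y : Fin n → (X ⟶ X), ∀ i, y i = ∑ k, c k i • w k := ⟨_, fun i => rfl⟩
  have hyπ : ∀ i, y i ≫ π = 0 := by
    apply indep W _ hind''
    rw [← h5]
    have h6 : ∀ k, ((f ≫ z k) ⊗ₘ (w k ≫ π)) =
        ∑ i, ((f ≫ z (t i)) ⊗ₘ ((c k i • w k) ≫ π)) := by
      intro k
      conv_lhs => rw [hc' k]
      rw [sum_tensor']
      refine Finset.sum_congr rfl (fun i _ => ?_)
      rw [Linear.smul_comp, MonoidalCategory.tensorHom_def, MonoidalCategory.tensorHom_def,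
        MonoidalLinear.smul_whiskerRight, MonoidalLinear.whiskerLeft_smul, Linear.smul_comp,
        Linear.comp_smul]
    rw [Finset.sum_congr rfl (fun k _ => h6 k), Finset.sum_comm]
    refine Finset.sum_congr rfl (fun i _ => ?_)
    rw [hy, Preadditive.sum_comp, tensor_sum']
  obtain ⟨s, hs⟩ := h4 _ (∑ i, z (t i) ≫ y i) (by
    rw [Preadditive.sum_comp]
    refine Finset.sum_eq_zero (fun i _ => ?_)
    rw [Category.assoc, hyπ, Limits.comp_zero])
  have h7 : f ≫ (∑ i, z (t i) ≫ y i) = 0 := by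
    rw [hs, Preadditive.comp_sum]
    refine Finset.sum_eq_zero (fun i _ => ?_)
    rw [← Category.assoc, hf, Limits.zero_comp]
  have h8 : f ≫ (∑ i, z (t i) ≫ y i) = f := by
    calc f ≫ (∑ i, z (t i) ≫ y i) = ∑ i, ∑ k, c k i • (f ≫ z (t i)) ≫ w k := by
          rw [Preadditive.comp_sum]
          refine Finset.sum_congr rfl (fun i _ => ?_)
          rw [hy, Preadditive.comp_sum, Preadditive.comp_sum]
          refine Finset.sum_congr rfl (fun k _ => ?_)
          rw [Linear.comp_smul, Linear.comp_smul, Category.assoc]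
      _ = ∑ k, (f ≫ z k) ≫ w k := by
          rw [Finset.sum_comm]
          refine Finset.sum_congr rfl (fun k _ => ?_)
          rw [hc' k, Preadditive.sum_comp]
          refine Finset.sum_congr rfl (fun i _ => ?_)
          rw [Linear.smul_comp]
      _ = f ≫ ∑ k, z k ≫ w k := by
          rw [Preadditive.comp_sum]
          refine Finset.sum_congr rfl (fun k _ => ?_)
          rw [Category.assoc]
      _ = f := by rw [h1, Category.comp_id]
  rw [← h8, h7]

end

end Mot84
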