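import Pool.Agent.Mot84.Good

/-!
# Moving the dual to the other side (MP_6c4da4_ag, by helper84)
-/

open CategoryTheory MonoidalCategory BraidedCategory Limits

universe v u

namespace Mot84

open Mot

noncomputable section

set_option linter.unusedSectionVars false

variable {C : Type u} [Category.{v} C] [Abelian C] [Linear ℚ C] [MonoidalCategory C]
  [SymmetricCategory C] [MonoidalPreadditive C] [MonoidalLinear ℚ C] [RightRigidCategory C]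

/-- contraction of the second factor -/
def phi {Y : C} (x : Y ⊗ Y ⟶ Y ⊗ Y) : (Y ⊗ Y) ⊗ Yᘁ ⟶ Y :=
  x ▷ Yᘁ ≫ (α_ Y Y Yᘁ).hom ≫ Y ◁ ev Y Yᘁ ≫ (ρ_ Y).hom

lemma phi_inj {Y : C} {x y : Y ⊗ Y ⟶ Y ⊗ Y} (h : phi x = phi y) : x = y := by
  let inst := exactPairing_swap Y Yᘁ
  have h1 : ∀ x : Y ⊗ Y ⟶ Y ⊗ Y, (tensorRightHomEquiv (Y ⊗ Y) Yᘁ Y Y).symm x = phi x := by
    intro x
    rfl
  rw [← h1, ← h1] at h
  exact (tensorRightHomEquiv (Y ⊗ Y) Yᘁ Y Y).symm.injective h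

/-- the other contraction -/
def psi {Y : C} (x : Y ⊗ Yᘁ ⟶ Y ⊗ Yᘁ) : (Y ⊗ Yᘁ) ⊗ Y ⟶ Y :=
  x ▷ Y ≫ (α_ Y Yᘁ Y).hom ≫ Y ◁ ε_ Y Yᘁ ≫ (ρ_ Y).hom

/-- the exchange of the last two factors -/
def ss (Y : C) : (Y ⊗ Yᘁ) ⊗ Y ≅ (Y ⊗ Y) ⊗ Yᘁ :=
  α_ Y Yᘁ Y ≪≫ whiskerLeftIso Y (β_ Yᘁ Y) ≪≫ (α_ Y Y Yᘁ).symm

lemma assoc_nat {A B A' B' : C} (x : A ⟶ A') (y : B ⟶ B') (D : C) :
    (x ⊗ₘ y) ▷ D ≫ (α_ A' B' D).hom = (α_ A B D).hom ≫ (x ⊗ₘ (y ▷ D)) := by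
  rw [← tensorHom_id, associator_naturality, tensorHom_id]

lemma phi_tensor {Y : C} (x y : Y ⟶ Y) (y' : Yᘁ ⟶ Yᘁ) (hy : y' ▷ Y ≫ ε_ Y Yᘁ = Yᘁ ◁ y ≫ ε_ Y Yᘁ) :
    (ss Y).hom ≫ phi (x ⊗ₘ y) = psi (x ⊗ₘ y') := by
  have h1 : (β_ Yᘁ Y).hom ≫ y ▷ Yᘁ ≫ (β_ Y Yᘁ).hom ≫ ε_ Y Yᘁ = Yᘁ ◁ y ≫ ε_ Y Yᘁ := by
    rw [braiding_naturality_left_assoc, SymmetricCategory.symmetry_assoc]
  have h2 : phi (x ⊗ₘ y) = (α_ Y Y Yᘁ).hom ≫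
      (x ⊗ₘ (y ▷ Yᘁ ≫ (β_ Y Yᘁ).hom ≫ ε_ Y Yᘁ)) ≫ (ρ_ Y).hom := by
    unfold phi ev
    rw [← Category.assoc, assoc_nat, Category.assoc, ← id_tensorHom,
      tensorHom_comp_tensorHom_assoc, Category.comp_id]
  have h3 : psi (x ⊗ₘ y') = (α_ Y Yᘁ Y).hom ≫ (x ⊗ₘ (y' ▷ Y ≫ ε_ Y Yᘁ)) ≫ (ρ_ Y).hom := by
    unfold psi
    rw [← Category.assoc, assoc_nat, Category.assoc, ← id_tensorHom,
      tensorHom_comp_tensorHom_assoc, Category.comp_id]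
  rw [h2, h3, hy, ← h1]
  unfold ss
  simp only [Iso.trans_hom, whiskerLeftIso_hom, Iso.symm_hom, Category.assoc,
    Iso.inv_hom_id_assoc]
  rw [← id_tensorHom, tensorHom_comp_tensorHom_assoc, Category.id_comp]

lemma phi_braid {Y : C} (a b : Y ⟶ Y) :
    (ss Y).hom ≫ phi ((a ⊗ₘ b) ≫ (β_ Y Y).hom) = psi ((a ▷ Yᘁ ≫ ev Y Yᘁ) ≫ nm b) := by
  have h3 : psi ((a ▷ Yᘁ ≫ ev Y Yᘁ) ≫ nm b) = (a ▷ Yᘁ ≫ ev Y Yᘁ) ▷ Y ≫ (λ_ Y).hom ≫ b := by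
    unfold psi
    rw [comp_whiskerRight, Category.assoc, nm_back]
  have h2 : phi ((a ⊗ₘ b) ≫ (β_ Y Y).hom) = (a ⊗ₘ b) ▷ Yᘁ ≫ ((β_ Y Y).hom ▷ Yᘁ ≫
      (α_ Y Y Yᘁ).hom ≫ Y ◁ ev Y Yᘁ ≫ (ρ_ Y).hom) := by
    unfold phi
    rw [comp_whiskerRight, Category.assoc]
  rw [h2, h3, ← slide]
  rw [← Category.assoc ((a ⊗ₘ b) ▷ Yᘁ), assoc_nat, Category.assoc]
  unfold ss
  simp only [Iso.trans_hom, whiskerLeftIso_hom, Iso.symm_hom, Category.assoc,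
    Iso.inv_hom_id_assoc]
  have h4 : Y ◁ (β_ Yᘁ Y).hom ≫ (a ⊗ₘ b ▷ Yᘁ) ≫ Y ◁ (β_ Y Yᘁ).hom = (a ⊗ₘ Yᘁ ◁ b) := by
    rw [← id_tensorHom, ← id_tensorHom, tensorHom_comp_tensorHom, tensorHom_comp_tensorHom,
      Category.id_comp, Category.comp_id, braiding_naturality_left,
      SymmetricCategory.symmetry_assoc]
  rw [← Category.assoc (a ⊗ₘ b ▷ Yᘁ), ← Category.assoc (Y ◁ _), h4]
  rw [← id_tensorHom, associator_inv_naturality_assoc, Iso.hom_inv_id_assoc, ← tensorHom_id,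
    tensorHom_comp_tensorHom_assoc, Category.comp_id, MonoidalCategory.tensorHom_def, Category.assoc,
    leftUnitor_naturality, tensorHom_id]


lemma phi_sum {Y : C} {ι : Type} [Fintype ι] (x : ι → (Y ⊗ Y ⟶ Y ⊗ Y)) :
    phi (∑ i, x i) = ∑ i, phi (x i) := by
  unfold phi
  rw [sum_whiskerRight, Preadditive.sum_comp]

lemma psi_sum {Y : C} {ι : Type} [Fintype ι] (x : ι → (Y ⊗ Yᘁ ⟶ Y ⊗ Yᘁ)) :
    psi (∑ i, x i) = ∑ i, psi (x i) := by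
  unfold psi
  rw [sum_whiskerRight, Preadditive.sum_comp]

/-- the identity in `End (Y ⊗ Y')` turns into an identity in `End (Y ⊗ Y)` -/
lemma turn {Y : C} {κ ι : Type} [Fintype κ] [Fintype ι] (z w : κ → (Y ⟶ Y)) (w' : κ → (Yᘁ ⟶ Yᘁ))
    (hw : ∀ k, η_ Y Yᘁ ≫ Y ◁ w' k = nm (w k)) (a b : ι → (Y ⟶ Y))
    (h : ∑ k, (z k ⊗ₘ w' k) = ∑ j, (a j ▷ Yᘁ ≫ ev Y Yᘁ) ≫ nm (b j)) :
    ∑ k, (z k ⊗ₘ w k) = (∑ j, (a j ⊗ₘ b j)) ≫ (β_ Y Y).hom := by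
  apply phi_inj
  rw [← cancel_epi (ss Y).hom]
  have hw' : ∀ k, w' k ▷ Y ≫ ε_ Y Yᘁ = Yᘁ ◁ w k ≫ ε_ Y Yᘁ := by
    intro k
    have h1 : w' k = mt Yᘁ Yᘁ (w k) := by
      have h2 : η_ Y Yᘁ ≫ Y ◁ w' k = η_ Y Yᘁ ≫ Y ◁ mt Yᘁ Yᘁ (w k) := by
        rw [hw, mt_coev]
        rfl
      rw [← cancel_epi (ρ_ Yᘁ).hom, ← back_coev, ← back_coev, h2]
    rw [h1, mt_ev']
  calc (ss Y).hom ≫ phi (∑ k, (z k ⊗ₘ w k)) = psi (∑ k, (z k ⊗ₘ w' k)) := by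
        rw [phi_sum, psi_sum, Preadditive.comp_sum]
        exact Finset.sum_congr rfl (fun k _ => phi_tensor _ _ _ (hw' k))
    _ = psi (∑ j, (a j ▷ Yᘁ ≫ ev Y Yᘁ) ≫ nm (b j)) := by rw [h]
    _ = (ss Y).hom ≫ phi ((∑ j, (a j ⊗ₘ b j)) ≫ (β_ Y Y).hom) := by
        rw [Preadditive.sum_comp, phi_sum, psi_sum, Preadditive.comp_sum]
        exact Finset.sum_congr rfl (fun k _ => (phi_braid _ _).symm)

/-- the inverse of a power of Frobenius -/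
lemma inv_F (W : Frob C) (X : C) (n : ℕ) : ∃ H : X ⟶ X, W.Fp X n ≫ H = 𝟙 X ∧
    η_ X Xᘁ ≫ X ◁ W.Fp Xᘁ n = nm H := by
  obtain ⟨H, hH⟩ := nm_surj (η_ X Xᘁ ≫ X ◁ W.Fp Xᘁ n)
  have h1 : η_ X Xᘁ ≫ (W.Fp X n ⊗ₘ W.Fp Xᘁ n) = η_ X Xᘁ := by
    rw [← W.Fp_tensor, W.Fp_nat, W.Fp_of_one W.F_unit, Category.id_comp]
  refine ⟨H, ?_, hH.symm⟩
  rw [← W.Fp_nat]
  apply nm_inj
  rw [nm_comp, hH, Category.assoc, ← tensorHom_def', h1]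
  unfold nm
  rw [id_whiskerRight, Category.comp_id]

lemma aeval_FE (W : Frob C) (X : C) (q : Polynomial ℚ) :
    (Polynomial.aeval (W.FE X) q : X ⟶ X) =
      ∑ k : Fin (q.natDegree + 1), q.coeff k • W.Fp X k := by
  rw [Polynomial.aeval_eq_sum_range]
  have h := Finset.sum_range (n := q.natDegree + 1)
    (fun k => q.coeff k • (W.FE X) ^ k)
  refine h.trans ?_
  refine Finset.sum_congr rfl (fun k _ => ?_)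
  rw [W.FE_pow]

lemma aeval_nat (W : Frob C) {X Y : C} (f : X ⟶ Y) (q : Polynomial ℚ) :
    f ≫ (Polynomial.aeval (W.FE Y) q : Y ⟶ Y) = (Polynomial.aeval (W.FE X) q : X ⟶ X) ≫ f := by
  rw [aeval_FE, aeval_FE, Preadditive.comp_sum, Preadditive.sum_comp]
  refine Finset.sum_congr rfl (fun k _ => ?_)
  rw [Linear.comp_smul, Linear.smul_comp, W.Fp_nat]

/-- Tate objects are good -/
theorem good_of_tate (W : Frob C) {Y : C}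
    (hY : W.mult (Y ⊗ Yᘁ) = Module.finrank ℚ (Y ⟶ Y)) : Good Y := by
  have hfin := W.finite_hom (𝟙_ C) (Y ⊗ Yᘁ)
  have hfin2 := W.finite_hom Y Y
  have h1 : Module.finrank ℚ (Y ⟶ Y) ≤ Module.finrank ℚ (𝟙_ C ⟶ Y ⊗ Yᘁ) :=
    LinearMap.finrank_le_finrank_of_injective (f := nmL Y Y) (fun f g h => nm_inj h)
  obtain ⟨Z, π, hπ, h0, h2, h3⟩ := divideAll W _ (Module.finBasis ℚ (𝟙_ C ⟶ Y ⊗ Yᘁ))
  have h4 := h3 (Module.finBasis ℚ (𝟙_ C ⟶ Y ⊗ Yᘁ)).linearIndependent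
  have h5 : W.mult Z = 0 := by omega
  obtain ⟨q, hq1, hq2⟩ := exists_poly W h5
  obtain ⟨c, hc⟩ := h2 _ (Polynomial.aeval (W.FE (Y ⊗ Yᘁ)) q : (Y ⊗ Yᘁ) ⟶ (Y ⊗ Yᘁ)) (by
    rw [← aeval_nat, hq2]
    exact Limits.comp_zero)
  rw [aeval_FE] at hc
  choose H hH1 hH2 using inv_F W Y
  choose b hb using fun j => nm_surj (Module.finBasis ℚ (𝟙_ C ⟶ Y ⊗ Yᘁ) j)
  choose a ha using fun j => ev_surj (c j)
  refine ⟨Fin (q.natDegree + 1), Fin (Module.finrank ℚ (𝟙_ C ⟶ Y ⊗ Yᘁ)), inferInstance,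
    inferInstance, fun k => q.coeff k • W.Fp Y k, fun k => H k, a, b, ?_, ?_⟩
  · have h6 : ∀ k : Fin (q.natDegree + 1), (q.coeff k • W.Fp Y k) ≫ H k = q.coeff k • 𝟙 Y := by
      intro k
      rw [Linear.smul_comp, hH1]
    rw [Finset.sum_congr rfl (fun k _ => h6 k), ← Finset.sum_smul]
    have h7 : ∑ k : Fin (q.natDegree + 1), q.coeff k = 1 := by
      have h8 := Polynomial.eval_eq_sum_range (p := q) 1
      rw [hq1, Finset.sum_range] at h8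
      simpa using h8.symm
    rw [h7, one_smul]
  · refine turn (fun k : Fin (q.natDegree + 1) => q.coeff k • W.Fp Y k)
      (fun k : Fin (q.natDegree + 1) => H k) (fun k : Fin (q.natDegree + 1) => W.Fp Yᘁ k)
      (fun k => hH2 k) _ _ ?_
    have h9 : ∀ k : Fin (q.natDegree + 1), (q.coeff k • W.Fp Y k ⊗ₘ W.Fp Yᘁ k) =
        q.coeff k • W.Fp (Y ⊗ Yᘁ) k := by
      intro k
      rw [W.Fp_tensor, MonoidalCategory.tensorHom_def, MonoidalCategory.tensorHom_def,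
        MonoidalLinear.smul_whiskerRight, Linear.smul_comp]
    rw [Finset.sum_congr rfl (fun k _ => h9 k), hc]
    refine Finset.sum_congr rfl (fun j _ => ?_)
    rw [hb, ha j]

end

end Mot84
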